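import Mathlib
import Pool.Agent.H257R3.SI.Stubs

/-! A14: from data structures to the counting inequality. -/

namespace Pool.Agent.H942R3

open Pool.Agent.H257R3.SI Finset

section

variable {m K N T s t : ℕ}

/-- the families given by a point -/
def fam (hK : K ≤ N) (F : Vx m K → Bool) : Fam m N :=
  (fun i => (univ.filter fun u : Fin K => F (.inl (i, u)) = true).image (Fin.castLE hK),
   fun j => (univ.filter fun u : Fin K => F (.inr (j, u)) = true).image (Fin.castLE hK))

lemma bool_mono {a b : Bool} (h : a ≤ b) (ha : a = true) : b = true := by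
  subst ha
  cases b
  · exact absurd h (by decide)
  · rfl

lemma fam_mono (hK : K ≤ N) : Monotone (fam hK : (Vx m K → Bool) → Fam m N) := by
  intro F F' h
  constructor
  · intro i
    apply image_subset_image
    intro u hu
    rw [mem_filter] at hu ⊢
    exact ⟨hu.1, bool_mono (h _) hu.2⟩
  · intro i
    apply image_subset_image
    intro u hu
    rw [mem_filter] at hu ⊢
    exact ⟨hu.1, bool_mono (h _) hu.2⟩

lemma mem_fam1 (hK : K ≤ N) (F : Vx m K → Bool) (i : Fin m) (u : Fin K) :
    Fin.castLE hK u ∈ (fam hK F).1 i ↔ F (.inl (i, u)) = true := by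
  simp [fam]

lemma mem_fam2 (hK : K ≤ N) (F : Vx m K → Bool) (j : Fin m) (u : Fin K) :
    Fin.castLE hK u ∈ (fam hK F).2 j ↔ F (.inr (j, u)) = true := by
  simp [fam]

lemma fam_inter (hK : K ≤ N) (F : Vx m K → Bool) (i j : Fin m) :
    ((fam hK F).1 i ∩ (fam hK F).2 j).card =
      (univ.filter fun u => F (.inl (i, u)) = true ∧ F (.inr (j, u)) = true).card := by
  have h : (fam hK F).1 i ∩ (fam hK F).2 j =
      (univ.filter fun u => F (.inl (i, u)) = true ∧ F (.inr (j, u)) = true).image (Fin.castLE hK) := by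
    rw [filter_and]
    exact (image_inter _ _ (Fin.castLE_injective hK)).symm
  rw [h, card_image_of_injective _ (Fin.castLE_injective hK)]

lemma fam_size (hK : K ≤ N) (h2 : 2 * m * K ≤ N) (F : Vx m K → Bool) : totalSize (fam hK F) ≤ N := by
  have h1 : ∀ i, ((fam hK F).1 i).card ≤ K := fun i =>
    card_image_le.trans ((card_filter_le _ _).trans (by simp))
  have h3 : ∀ i, ((fam hK F).2 i).card ≤ K := fun i =>
    card_image_le.trans ((card_filter_le _ _).trans (by simp))
  unfold totalSize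
  have e1 : ∑ i, ((fam hK F).1 i).card ≤ m * K := by
    refine (sum_le_sum fun i _ => h1 i).trans ?_
    simp
  have e2 : ∑ i, ((fam hK F).2 i).card ≤ m * K := by
    refine (sum_le_sum fun i _ => h3 i).trans ?_
    simp
  have e3 : 2 * m * K = m * K + m * K := by ring
  omega

lemma fam_left (hK : K ≤ N) (F F' : Vx m K → Bool) (h : ∀ e, F (.inl e) = F' (.inl e)) :
    (fam hK F).1 = (fam hK F').1 := by
  funext i
  simp [fam, h]

lemma fam_right (hK : K ≤ N) (F F' : Vx m K → Bool) (h : ∀ e, F (.inr e) = F' (.inr e)) :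
    (fam hK F).2 = (fam hK F').2 := by
  funext i
  simp [fam, h]

/-- no large intersections -/
def good (T : ℕ) (F : Vx m K → Bool) : Prop := ∀ i j,
  (univ.filter fun u => F (.inl (i, u)) = true ∧ F (.inr (j, u)) = true).card ≤ T

lemma pt_good (hT : 1 ≤ T) (i j : Fin m) (u : Fin K) :
    good T (pt (.inl (i, u)) (.inr (j, u)) : Vx m K → Bool) := by
  intro i' j'
  refine le_trans ?_ hT
  rw [card_le_one]
  intro x hx y hy
  simp only [pt, mem_filter, mem_univ, true_and, decide_eq_true_eq] at hx hy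
  have h1 : x = u := by
    rcases hx.1 with h | h
    · exact (Prod.ext_iff.mp (Sum.inl.inj h)).2
    · exact absurd h (by simp)
  have h2 : y = u := by
    rcases hy.1 with h | h
    · exact (Prod.ext_iff.mp (Sum.inl.inj h)).2
    · exact absurd h (by simp)
  rw [h1, h2]

/-- the answer of `D` is correct for `u`, `i`, `j` at the families of `F` -/
def corr (hK : K ≤ N) (D : DS m N s t) (i j : Fin m) (u : Fin K) (F : Vx m K → Bool) : Prop :=
  Fin.castLE hK u ∈ D.answer i j (fam hK F) ↔
    Fin.castLE hK u ∈ (fam hK F).1 i ∩ (fam hK F).2 j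

/-- the set of A12 -/
def GG (hK : K ≤ N) (T : ℕ) (D : DS m N s t) (i : Fin m) (u : Fin K) (j : Fin m) :
    Set (Vx m K → Bool) :=
  {F | (good T F ∧ F (.inl (i, u)) = false ∧ F (.inr (j, u)) = true) ∧ corr hK D i j u F ∧
    corr hK D i j u (pt (.inl (i, u)) (.inr (j, u)))}

lemma read_mono (D : DS m N s t) (S : Source m N s) : Monotone (fun x => D.read x S) := by
  intro x y hxy
  cases S with
  | left f hf => exact hf hxy.1
  | right f hf => exact hf hxy.2
  | cell c => exact D.store_mono c hxy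

lemma step (h12 : St_A12) (hK : K ≤ N) (D : DS m N s t) {ρ : ℝ} (hρ : 0 < ρ) (hρ1 : ρ ≤ 1) :
    ∑ i, ∑ u, ∑ j, Pr ρ (GG hK T D i u j) ≤ 96 * m ^ 2 * t + s * (ρ * c1 ρ) := by
  refine h12 m K s t ρ hρ hρ1 (fun c F => D.store c (fam hK F))
    (fun i j l F => D.read (fam hK F) (D.probe i j l)) ?_ ?_ _ ?_
  · intro c F F' h
    exact D.store_mono c (fam_mono hK h)
  · intro i j l
    refine ⟨fun F F' h => read_mono D _ (fam_mono hK h), ?_⟩
    cases hS : D.probe i j l with
    | left f hf =>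
      left
      intro F F' h
      show f (fam hK F).1 = f (fam hK F').1
      rw [fam_left hK F F' h]
    | right f hf =>
      right
      left
      intro F F' h
      show f (fam hK F).2 = f (fam hK F').2
      rw [fam_right hK F F' h]
    | cell c =>
      right
      right
      refine ⟨c, ?_⟩
      funext F
      rfl
  · intro i u j F hF
    obtain ⟨⟨_, hF1, hF2⟩, hc1, hc2⟩ := hF
    refine ⟨hF2, ?_⟩
    by_contra hcon
    push Not at hcon
    have hsub := D.out_mono i j (show
      (fun l => D.read (fam hK (pt (.inl (i, u)) (.inr (j, u)))) (D.probe i j l)) ≤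
        fun l => D.read (fam hK F) (D.probe i j l) from fun l => hcon l)
    have h1 : Fin.castLE hK u ∈ D.answer i j (fam hK (pt (.inl (i, u)) (.inr (j, u)))) := by
      refine (show _ ↔ _ from hc2).mpr ?_
      rw [mem_inter, mem_fam1, mem_fam2]
      simp [pt]
    have h2 : Fin.castLE hK u ∈ D.answer i j (fam hK F) := hsub h1
    have h3 := (show _ ↔ _ from hc1).mp h2
    rw [mem_inter, mem_fam1, hF1] at h3
    exact absurd h3.1 (by simp)

end

section

variable {V : Type} [Fintype V]

lemma wt_nonneg {ρ : ℝ} (h0 : 0 ≤ ρ) (h1 : ρ ≤ 1) (F : V → Bool) : 0 ≤ wt ρ F := by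
  unfold wt
  refine prod_nonneg fun v _ => ?_
  split_ifs
  · exact h0
  · linarith

variable [DecidableEq V]

open Classical in
lemma Pr_eq (ρ : ℝ) (S : Set (V → Bool)) : Pr ρ S = ∑ F : V → Bool, wt ρ F * (if F ∈ S then 1 else 0) := by
  unfold Pr Ex
  refine sum_congr rfl fun F _ => ?_
  rw [Set.indicator_apply]

lemma Pr_two (h1 : St_A1) (h2 : St_A2) (ρ : ℝ) (a b : V) (hab : a ≠ b) :
    Pr ρ {F : V → Bool | F a = false ∧ F b = true} = ρ * (1 - ρ) := by
  classical
  have e1 : Pr ρ {F : V → Bool | F a = false ∧ F b = true} =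
      Ex ρ (fun F => (fun c : Bool => if c = false then (1:ℝ) else 0) (F a) *
        (if F b = true then (1:ℝ) else 0)) := by
    rw [Pr_eq]
    unfold Ex
    refine sum_congr rfl fun F _ => ?_
    congr 1
    by_cases h3 : F a = false <;> by_cases h4 : F b = true <;> simp [h3, h4]
  rw [e1, h2 V ρ a (fun c : Bool => if c = false then (1:ℝ) else 0)
    (fun F => if F b = true then (1:ℝ) else 0) (by
      intro F c
      rw [Function.update_of_ne hab.symm])]
  have e2 : Ex ρ (fun F : V → Bool => if F b = true then (1:ℝ) else 0) =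
      Ex ρ (fun F : V → Bool => (fun c : Bool => if c = true then (1:ℝ) else 0) (F b) *
        (fun _ => (1:ℝ)) F) := by
    unfold Ex
    refine sum_congr rfl fun F _ => ?_
    simp
  rw [e2, h2 V ρ b (fun c : Bool => if c = true then (1:ℝ) else 0) (fun _ => (1:ℝ))
    (fun _ _ => rfl), h1 V ρ 1]
  simp
  ring

end

theorem a14 (h1 : St_A1) (h2 : St_A2) (h12 : St_A12) : St_A14 := by
  classical
  intro m K N T s t δ ρ hKN h2N hT hδ hρ hρ1 Ω _ p D hS
  obtain ⟨bad, hbad⟩ : ∃ B : Set (Vx m K → Bool), B = {F : Vx m K → Bool | ∃ i j, T <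
    (Finset.univ.filter fun u => F (.inl (i, u)) = true ∧ F (.inr (j, u)) = true).card} := ⟨_, rfl⟩
  rw [← hbad]
  -- mass of the correct structures
  have hmass : ∀ (i j : Fin m) (u : Fin K) (F : Vx m K → Bool), good T F →
      1 / 2 + δ ≤ ∑ ω, p ω * (if corr hKN (D ω) i j u F then 1 else 0) := by
    intro i j u F hF
    have h3 := hS.correct (fam hKN F) (fam_size hKN h2N F) (fun i j => by
      rw [fam_inter]
      exact hF i j) i j (Fin.castLE hKN u)
    rw [sum_filter] at h3
    refine h3.trans (le_of_eq ?_)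
    refine sum_congr rfl fun ω _ => ?_
    by_cases hc : corr hKN (D ω) i j u F
    · rw [if_pos hc, mul_one, if_pos]
      exact hc
    · rw [if_neg hc, mul_zero, if_neg]
      exact hc
  have hboth : ∀ (i j : Fin m) (u : Fin K) (F : Vx m K → Bool), good T F →
      2 * δ ≤ ∑ ω, p ω * (if corr hKN (D ω) i j u F ∧
        corr hKN (D ω) i j u (pt (.inl (i, u)) (.inr (j, u))) then 1 else 0) := by
    intro i j u F hF
    have h3 := hmass i j u F hF
    have h4 := hmass i j u _ (pt_good hT i j u)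
    have h5 : ∑ ω, p ω * (if corr hKN (D ω) i j u F then 1 else 0) +
        ∑ ω, p ω * (if corr hKN (D ω) i j u (pt (.inl (i, u)) (.inr (j, u))) then 1 else 0) ≤
        ∑ ω, p ω * (if corr hKN (D ω) i j u F ∧
          corr hKN (D ω) i j u (pt (.inl (i, u)) (.inr (j, u))) then 1 else 0) + ∑ ω, p ω := by
      rw [← sum_add_distrib, ← sum_add_distrib]
      refine sum_le_sum fun ω _ => ?_
      have := hS.nonneg ω
      by_cases c1 : corr hKN (D ω) i j u F <;>
        by_cases c2 : corr hKN (D ω) i j u (pt (.inl (i, u)) (.inr (j, u))) <;>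
        simp [c1, c2, this]
    rw [hS.sum_one] at h5
    linarith
  -- one triple
  have htrip : ∀ (i : Fin m) (u : Fin K) (j : Fin m),
      2 * δ * (ρ * (1 - ρ) - Pr ρ bad) ≤ ∑ ω, p ω * Pr ρ (GG hKN T (D ω) i u j) := by
    intro i u j
    have hne : (Sum.inl (i, u) : Vx m K) ≠ Sum.inr (j, u) := by simp
    have e1 := Pr_two h1 h2 ρ (Sum.inl (i, u) : Vx m K) (Sum.inr (j, u)) hne
    obtain ⟨A, hA⟩ : ∃ A : Set (Vx m K → Bool), A = {F : Vx m K → Bool |
      F (.inl (i, u)) = false ∧ F (.inr (j, u)) = true} := ⟨_, rfl⟩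
    rw [← hA] at e1
    have e2 : ∑ ω, p ω * Pr ρ (GG hKN T (D ω) i u j) = ∑ F : Vx m K → Bool, wt ρ F *
        ∑ ω, p ω * (if F ∈ GG hKN T (D ω) i u j then 1 else 0) := by
      simp only [Pr_eq, mul_sum]
      rw [sum_comm]
      refine sum_congr rfl fun F _ => sum_congr rfl fun ω _ => ?_
      ring
    rw [e2, ← e1, Pr_eq, Pr_eq, ← sum_sub_distrib, mul_sum]
    refine sum_le_sum fun F _ => ?_
    have hw := wt_nonneg hρ.le hρ1 F
    have key : 2 * δ * ((if F ∈ A then (1:ℝ) else 0) - (if F ∈ bad then 1 else 0)) ≤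
        ∑ ω, p ω * (if F ∈ GG hKN T (D ω) i u j then 1 else 0) := by
      have hnn : 0 ≤ ∑ ω, p ω * (if F ∈ GG hKN T (D ω) i u j then (1:ℝ) else 0) := by
        refine sum_nonneg fun ω _ => mul_nonneg (hS.nonneg ω) ?_
        split_ifs <;> norm_num
      by_cases hb : F ∈ bad
      · rw [if_pos hb]
        refine le_trans ?_ hnn
        have : (if F ∈ A then (1:ℝ) else 0) ≤ 1 := by
          split_ifs <;> norm_num
        have h6 : 0 < 2 * δ := by positivity
        nlinarith
      · rw [if_neg hb]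
        by_cases hF : F ∈ A
        · rw [if_pos hF, sub_zero, mul_one]
          have hg : good T F := by
            intro i' j'
            by_contra hc
            apply hb
            rw [hbad]
            exact ⟨i', j', not_le.mp hc⟩
          refine (hboth i j u F hg).trans (le_of_eq ?_)
          refine sum_congr rfl fun ω _ => ?_
          congr 1
          have hF' : F (.inl (i, u)) = false ∧ F (.inr (j, u)) = true := by
            rw [hA] at hF
            exact hF
          have : F ∈ GG hKN T (D ω) i u j ↔ (corr hKN (D ω) i j u F ∧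
              corr hKN (D ω) i j u (pt (.inl (i, u)) (.inr (j, u)))) :=
            ⟨fun h => h.2, fun h => ⟨⟨hg, hF'⟩, h⟩⟩
          simp only [this]
        · rw [if_neg hF]
          simpa using hnn
    calc 2 * δ * (wt ρ F * (if F ∈ A then (1:ℝ) else 0) - wt ρ F * (if F ∈ bad then 1 else 0))
        = wt ρ F * (2 * δ * ((if F ∈ A then (1:ℝ) else 0) - (if F ∈ bad then 1 else 0))) := by ring
      _ ≤ _ := mul_le_mul_of_nonneg_left key hw
  -- sum over all triples
  have hsum : 2 * δ * ((m : ℝ) ^ 2 * K) * (ρ * (1 - ρ) - Pr ρ bad) ≤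
      ∑ i : Fin m, ∑ u : Fin K, ∑ j : Fin m, ∑ ω, p ω * Pr ρ (GG hKN T (D ω) i u j) := by
    have h3 : ∑ _i : Fin m, ∑ _u : Fin K, ∑ _j : Fin m, (2 * δ * (ρ * (1 - ρ) - Pr ρ bad)) =
        2 * δ * ((m : ℝ) ^ 2 * K) * (ρ * (1 - ρ) - Pr ρ bad) := by
      simp only [sum_const, card_univ, Fintype.card_fin, nsmul_eq_mul]
      ring
    rw [← h3]
    exact sum_le_sum fun i _ => sum_le_sum fun u _ => sum_le_sum fun j _ => htrip i u j
  have hswap : ∑ i : Fin m, ∑ u : Fin K, ∑ j : Fin m, ∑ ω, p ω * Pr ρ (GG hKN T (D ω) i u j) =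
      ∑ ω, p ω * ∑ i : Fin m, ∑ u : Fin K, ∑ j : Fin m, Pr ρ (GG hKN T (D ω) i u j) := by
    have s1 : ∀ (i : Fin m) (u : Fin K), ∑ j : Fin m, ∑ ω, p ω * Pr ρ (GG hKN T (D ω) i u j) =
        ∑ ω, ∑ j : Fin m, p ω * Pr ρ (GG hKN T (D ω) i u j) := fun i u => sum_comm
    have s2 : ∀ i : Fin m, ∑ u : Fin K, ∑ ω, ∑ j : Fin m, p ω * Pr ρ (GG hKN T (D ω) i u j) =
        ∑ ω, ∑ u : Fin K, ∑ j : Fin m, p ω * Pr ρ (GG hKN T (D ω) i u j) := fun i => sum_comm
    simp only [s1, s2, mul_sum]
    exact sum_comm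
  rw [hswap] at hsum
  refine hsum.trans ?_
  calc ∑ ω, p ω * ∑ i : Fin m, ∑ u : Fin K, ∑ j : Fin m, Pr ρ (GG hKN T (D ω) i u j)
      ≤ ∑ ω, p ω * (96 * m ^ 2 * t + s * (ρ * c1 ρ)) := by
        refine sum_le_sum fun ω _ => mul_le_mul_of_nonneg_left (step h12 hKN (D ω) hρ hρ1) (hS.nonneg ω)
    _ = 96 * m ^ 2 * t + s * (ρ * c1 ρ) := by rw [← sum_mul, hS.sum_one, one_mul]

end Pool.Agent.H942R3
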